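import Pool.Agent.U190.GS.Defs
import Pool.Agent.Y106.One.Defs

/-!
# Isotropic stable subspaces in one degree: definitions
-/

set_option autoImplicit false

open CategoryTheory AlgebraicGeometry

universe u v

namespace Pool.Agent.U190.GD

open Pool.Agent.H914 Pool.Agent.H914.VarClass Pool.Agent.H914.VarClass.Obj
  Pool.Agent.H914.WeilCohomology Pool.Agent.TH133.PW Pool.Agent.R908 Pool.Agent.U190.GS

variable {k : Type u} [Field k] {𝒱 : VarClass k} {ops : CycleOps 𝒱}
  {W : WeilCohomology.{u, v} ops}

/-- For every graded subspace `N` of `H(X)` which is stable under all algebraic correspondences and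
the symmetries in `𝒢`, and on which the cup product pairing vanishes, the dimension of `N^(2n - i)`
is at most that of `N^i`, where `n = dim X`. -/
def InequalityIn (𝒢 : Set (Symmetry W)) (X : 𝒱.Obj) (i : ℕ) : Prop :=
  ∀ N, IsStable W X N → IsInvariant 𝒢 X N → IsIsotropicFor (W.tr X) N →
    Module.finrank W.K (N (2 * X.dim - i)) ≤ Module.finrank W.K (N i)

/-- Every graded subspace of `H(Z)` which is stable under all algebraic correspondences and the
symmetries in `𝒢`, and on which the cup product pairing vanishes, is zero in the degree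
`2 dim Z - j`. -/
def NoIsotropicIn (𝒢 : Set (Symmetry W)) (Z : 𝒱.Obj) (j : ℕ) : Prop :=
  ∀ N, IsStable W Z N → IsInvariant 𝒢 Z N → IsIsotropicFor (W.tr Z) N →
    N (2 * Z.dim - j) = ⊥

/-- The space `H^i(X)` is spanned by the images of the spaces `H^j(Z)` under algebraic
correspondences from `Z` to `X`, where `(Z, j)` runs through the set `𝒵` of pairs. -/
def GeneratedIn (W : WeilCohomology.{u, v} ops) (𝒵 : Set (𝒱.Obj × ℕ)) (X : 𝒱.Obj) (i : ℕ) :
    Prop :=
  W.gr X i ≤ Submodule.span W.K {x | ∃ Z j, (Z, j) ∈ 𝒵 ∧ j ≤ 2 * Z.dim ∧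
    ∃ (p : ℕ) (z : (Z.prod X).Cycles), (Z.prod X).IsCyc p z ∧
      ∃ a ∈ W.gr Z j, W.corr (W.cl _ z) a = x}

end Pool.Agent.U190.GD
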