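import Pool.Agent.TH133.PW.Defs
import Pool.Agent.R908.AnisoDefs
import Pool.Agent.Y106.One.Defs
import Pool.Agent.W537.OneCycleDefs

/-!
# Isotropic stable subspaces in one degree: compact definitions
-/

set_option autoImplicit false

open CategoryTheory AlgebraicGeometry

universe u v

namespace Pool.Agent.U190.GD

open Pool.Agent.H914 Pool.Agent.H914.VarClass Pool.Agent.H914.VarClass.Obj
  Pool.Agent.H914.WeilCohomology Pool.Agent.TH133.PW Pool.Agent.R908 Pool.Agent.W537 Pool.Agent.Y106.One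

section Alg

variable {K : Type*} [Field K] {A : Type*} [Ring A] [Algebra K A]

/-- The subspaces `N i` of `gr i` are stable under the operators in the sets `S p` (an operator in
`S p` maps `N i` to `N j` if `j = i + 2 (p - n)`) and under the automorphisms in `G`, and the form
`tr (x y)` vanishes on them. -/
structure IsIsotropicStable (gr : ℕ → Submodule K A) (n : ℕ) (S : ℕ → Set (A →ₗ[K] A))
    (G : Set (A ≃ₐ[K] A)) (tr : A →ₗ[K] K) (N : ℕ → Submodule K A) : Prop where
  stable : IsStableUnder gr n S N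
  invariant : ∀ σ ∈ G, ∀ i, ∀ x ∈ N i, σ x ∈ N i
  isotropic : IsIsotropicFor tr N

/-- `dim N i ≤ dim N j` for all these families `N` -/
def DimAtMost (gr : ℕ → Submodule K A) (n : ℕ) (S : ℕ → Set (A →ₗ[K] A))
    (G : Set (A ≃ₐ[K] A)) (tr : A →ₗ[K] K) (i j : ℕ) : Prop :=
  ∀ N, IsIsotropicStable gr n S G tr N → Module.finrank K (N i) ≤ Module.finrank K (N j)

/-- `N i = 0` for all these families `N` -/
def VanishesAt (gr : ℕ → Submodule K A) (n : ℕ) (S : ℕ → Set (A →ₗ[K] A))
    (G : Set (A ≃ₐ[K] A)) (tr : A →ₗ[K] K) (i : ℕ) : Prop :=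
  ∀ N, IsIsotropicStable gr n S G tr N → N i = ⊥

/-- The operator `L` maps `N i` onto a subspace containing `N j`, for all families of subspaces `N i` of
`gr i` stable under the operators in the sets `S p`. -/
def MapsOnto (gr : ℕ → Submodule K A) (n : ℕ) (S : ℕ → Set (A →ₗ[K] A)) (L : A →ₗ[K] A)
    (i j : ℕ) : Prop :=
  ∀ N, IsStableUnder gr n S N → N j ≤ (N i).map L

end Alg

variable {k : Type u} [Field k] {𝒱 : VarClass k} {ops : CycleOps 𝒱}
  {W : WeilCohomology.{u, v} ops}

/-- The automorphisms of the algebra `H(X)` which belong to the symmetries in `𝒢`. -/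
def autOn (𝒢 : Set (Symmetry W)) (X : 𝒱.Obj) : Set (W.H X ≃ₐ[W.K] W.H X) :=
  {σ | ∃ S ∈ 𝒢, S.σ X = σ}

/-- For every graded subspace `N` of `H(X)` which is stable under all algebraic correspondences and
the symmetries in `𝒢`, and on which the cup product pairing vanishes, the dimension of `N^(2n - i)`
is at most that of `N^i`, where `n = dim X`. -/
def InequalityAt (𝒢 : Set (Symmetry W)) (X : 𝒱.Obj) (i : ℕ) : Prop :=
  DimAtMost (W.gr X) X.dim (cycleOperators W X) (autOn 𝒢 X) (W.tr X) (2 * X.dim - i) i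

/-- Every graded subspace of `H(Z)` which is stable under all algebraic correspondences and the
symmetries in `𝒢`, and on which the cup product pairing vanishes, is zero in the degree
`2 dim Z - j`. -/
def NoIsotropicAt (𝒢 : Set (Symmetry W)) (Z : 𝒱.Obj) (j : ℕ) : Prop :=
  VanishesAt (W.gr Z) Z.dim (cycleOperators W Z) (autOn 𝒢 Z) (W.tr Z) (2 * Z.dim - j)

/-- `D ^ (n - i) N^i ⊇ N^(2n - i)` for every graded subspace `N` of `H(X)` which is stable under all
algebraic correspondences, where `n = dim X`. -/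
def OntoAt (W : WeilCohomology.{u, v} ops) (X : 𝒱.Obj) (D : X.Cycles) (i : ℕ) : Prop :=
  MapsOnto (W.gr X) X.dim (cycleOperators W X)
    (lefPow W X D (X.dim - i)) i (2 * X.dim - i)

/-- The map `D ^ (n - i)` is injective on `H^i(X)` for some algebraic cycle `D` of codimension one,
where `n = dim X`. -/
def HasLefschetzClass (W : WeilCohomology.{u, v} ops) (X : 𝒱.Obj) (i : ℕ) : Prop :=
  ∃ D, X.IsCyc 1 D ∧ InjectsOn (W.gr X i)
    (lefPow W X D (X.dim - i))

/-- The space `H^i(X)` is spanned by the images of the spaces `H^j(Z)` under algebraic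
correspondences from `Z` to `X`, where `(Z, j)` runs through the set `𝒵` of pairs. -/
def SpannedFrom (W : WeilCohomology.{u, v} ops) (𝒵 : Set (𝒱.Obj × ℕ)) (X : 𝒱.Obj) (i : ℕ) :
    Prop :=
  W.gr X i ≤ Submodule.span W.K {x | ∃ Z j, (Z, j) ∈ 𝒵 ∧ j ≤ 2 * Z.dim ∧
    ∃ (p : ℕ) (z : (Z.prod X).Cycles), (Z.prod X).IsCyc p z ∧
      ∃ a ∈ W.gr Z j, W.corr (W.cl _ z) a = x}

end Pool.Agent.U190.GD
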