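import Pool.Agent.U190.GD.Main
import Pool.Agent.U190.GD.Small

/-!
# One cycle for all theories in one degree: the theorems with compact definitions
-/

set_option autoImplicit false

open CategoryTheory AlgebraicGeometry

universe u₁ v₁ u v

namespace Pool.Agent.U190.GD

open Pool.Agent.H914 Pool.Agent.H914.VarClass Pool.Agent.H914.VarClass.Obj
  Pool.Agent.H914.WeilCohomology Pool.Agent.TH133.PW Pool.Agent.R908 Pool.Agent.U190.GS
  Pool.Agent.Y106.One Pool.Agent.W537 Pool.Agent.N180.Cf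

variable {k : Type u} [Field k] {𝒱 : VarClass k} {ops : CycleOps 𝒱}
  {k₀ : Type u₁} [Field k₀] {𝒱₀ : VarClass k₀} {ops₀ : CycleOps 𝒱₀} {X : 𝒱.Obj}
  {W : WeilCohomology.{u, v} ops}

lemma isotropicStable_iff {𝒢 : Set (Symmetry W)} {X : 𝒱.Obj} {N : ℕ → Submodule W.K (W.H X)} :
    IsIsotropicStable (W.gr X) X.dim (cycleOperators W X) (autOn 𝒢 X) (W.tr X) N ↔
      IsStable W X N ∧ IsInvariant 𝒢 X N ∧ IsIsotropicFor (W.tr X) N := by
  constructor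
  · rintro ⟨h1, h2, h3⟩
    exact ⟨h1, fun S hS i x hx => h2 _ ⟨S, hS, rfl⟩ i x hx, h3⟩
  · rintro ⟨h1, h2, h3⟩
    refine ⟨h1, ?_, h3⟩
    rintro _ ⟨S, hS, rfl⟩ i x hx
    exact h2 S hS i x hx

lemma inequalityAt_iff {𝒢 : Set (Symmetry W)} {X : 𝒱.Obj} {i : ℕ} :
    InequalityAt 𝒢 X i ↔ InequalityIn 𝒢 X i := by
  constructor
  · intro h N h1 h2 h3
    exact h N (isotropicStable_iff.2 ⟨h1, h2, h3⟩)
  · intro h N hN
    obtain ⟨h1, h2, h3⟩ := isotropicStable_iff.1 hN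
    exact h N h1 h2 h3

lemma noIsotropicAt_iff {𝒢 : Set (Symmetry W)} {Z : 𝒱.Obj} {j : ℕ} :
    NoIsotropicAt 𝒢 Z j ↔ NoIsotropicIn 𝒢 Z j := by
  constructor
  · intro h N h1 h2 h3
    exact h N (isotropicStable_iff.2 ⟨h1, h2, h3⟩)
  · intro h N hN
    obtain ⟨h1, h2, h3⟩ := isotropicStable_iff.1 hN
    exact h N h1 h2 h3

/-- The isotropic stable subspaces detect the existence of one cycle for all theories. -/
theorem one_tfae (R : Reduction X 𝒱₀) {i : ℕ} (hi : i ≤ X.dim) {D : X.Cycles}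
    (hD : X.IsCyc 1 D)
    (hL : LefschetzForOne.{u, v} (ops := ops) (Reduction.Pure.{u₁, v₁} R ops₀) X D i) :
    [OneCycleForAll.{u, v} (ops := ops) (Reduction.Pure.{u₁, v₁} R ops₀) X D i,
      ∃ W : WeilCohomology.{u, v} ops, Reduction.Pure.{u₁, v₁} R ops₀ W ∧
        HasLefschetzClass W X i ∧ ∃ 𝒢 : Set (Symmetry W), InequalityAt 𝒢 X i,
      ∀ W : WeilCohomology.{u, v} ops, Reduction.Pure.{u₁, v₁} R ops₀ W →
        OntoAt W X D i].TFAE := by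
  have h := oneCycle_tfae (ops₀ := ops₀) R hi hD hL
  tfae_have 1 → 3 := fun h1 => (h.out 0 2).1 h1
  tfae_have 3 → 2 := by
    intro h3
    obtain ⟨W, hW, hinj, 𝒢, h𝒢⟩ := (h.out 2 1).1 h3
    exact ⟨W, hW, hinj, 𝒢, inequalityAt_iff.2 h𝒢⟩
  tfae_have 2 → 1 := by
    rintro ⟨W, hW, hinj, 𝒢, h𝒢⟩
    have h10 := h.out 1 0
    exact h10.1 ⟨W, hW, hinj, 𝒢, inequalityAt_iff.1 h𝒢⟩
  tfae_finish

/-- **One cycle for all theories if the cohomology in one degree is generated by cohomology groups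
without isotropic invariant subspaces.** -/
theorem one_of_spanned (R : Reduction X 𝒱₀) {i : ℕ} (hi : i ≤ X.dim)
    (hW : Reduction.Pure.{u₁, v₁} R ops₀ W) (hinj : HasLefschetzClass W X i)
    {𝒢 : Set (Symmetry W)} {𝒵 : Set (𝒱.Obj × ℕ)}
    (h𝒵 : ∀ Z j, (Z, j) ∈ 𝒵 → NoIsotropicAt 𝒢 Z j) (hgen : SpannedFrom W 𝒵 X i)
    {D : X.Cycles} (hD : X.IsCyc 1 D)
    (hL : LefschetzForOne.{u, v} (ops := ops) (Reduction.Pure.{u₁, v₁} R ops₀) X D i) :
    OneCycleForAll.{u, v} (ops := ops) (Reduction.Pure.{u₁, v₁} R ops₀) X D i :=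
  oneCycle_of_generated R hi hW hinj (fun Z j h => noIsotropicAt_iff.1 (h𝒵 Z j h)) hgen hD hL

end Pool.Agent.U190.GD
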