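import Pool.Agent.U190.GS.Lin

/-!
# Hard Lefschetz in one degree on stable subspaces: it is enough to consider isotropic invariant ones
-/

set_option autoImplicit false
set_option linter.unusedSectionVars false

namespace Pool.Agent.U190.GD

open Module
open Pool.Agent.U190.GS (jac_mul_nil mem_jacobson_iff semisimple_of_torsion exists_rel_compl Gr Orth
  GStable JP JP_comp JP_nil JP_le JP_anti JP_mono)

section Main

variable {K : Type*} [Field K] {V : Type*} [AddCommGroup V] [Module K V] [Module.Finite K V]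
  (A : Subalgebra K (End K V))

/-- The operator `L`, applied `c` times, maps the part of degree `n - c` of `N` onto the part of
degree `n + c`. -/
def HLat (π : ℕ → End K V) (n c : ℕ) (L : End K V) (N : Set V) : Prop :=
  ∀ y ∈ N, π (n + c) y = y → ∃ x ∈ N, π (n - c) x = x ∧ (L ^ c) x = y

variable {A} {π : ℕ → End K V} {n c : ℕ} {L : A}

/-- The step of the induction. -/
lemma step (hπ : ∀ j (x : V), π j (π j x) = π j x)
    (hL : ∀ x : V, π (n + c) (((L : End K V) ^ c) x) = ((L : End K V) ^ c) (π (n - c) x))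
    {F' F : Submodule A V} (h1 : F' ≤ F) (hF' : Gr π (F' : Set V))
    (hJ : ∀ j ∈ Ring.jacobson A, ∀ x ∈ F, j • x ∈ F') (hF : HLat π n c L (F : Set V))
    (ih : ∀ N : Submodule A V, N ≤ F' → Gr π (N : Set V) → HLat π n c L (N : Set V))
    (N : Submodule A V) (hN : N ≤ F) (hg : Gr π (N : Set V)) : HLat π n c L (N : Set V) := by
  intro y hy hyc
  obtain ⟨C, hC1, hC2, hC3, hC4⟩ := exists_rel_compl h1 hJ hN
  obtain ⟨x, hx, hxc, hxy⟩ := hF y (hN hy) hyc
  obtain ⟨a, ha, b, hb, hab⟩ := Submodule.mem_sup.1 (hC3 hx)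
  have hact : ∀ v : V, ((L : End K V) ^ c) v = (L ^ c) • v := fun v => rfl
  have e1 : y - ((L : End K V) ^ c) a = ((L : End K V) ^ c) b := by
    rw [← hxy, ← hab, map_add, add_sub_cancel_left]
  have e2 : y - ((L : End K V) ^ c) a ∈ F' := by
    apply hC4
    refine ⟨?_, ?_⟩
    · exact Submodule.mem_sup_left (N.sub_mem hy (by rw [hact]; exact N.smul_mem _ ha))
    · rw [e1, hact]; exact C.smul_mem _ hb
  set z := y - ((L : End K V) ^ c) (π (n - c) a) with hz
  have e3 : z = π (n + c) (y - ((L : End K V) ^ c) a) := by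
    rw [map_sub, hyc, hL]
  have e4 : z ∈ F' := by rw [e3]; exact hF' _ _ e2
  have e5 : z ∈ N := N.sub_mem hy (by rw [hact]; exact N.smul_mem _ (hg _ _ ha))
  obtain ⟨w, hw, hwc, hwz⟩ := ih (N ⊓ F') inf_le_right
    (fun j v hv => ⟨hg j v hv.1, hF' j v hv.2⟩) z ⟨e5, e4⟩ (by rw [e3, hπ])
  refine ⟨π (n - c) a + w, N.add_mem (hg _ _ ha) hw.1, by rw [map_add, hπ, hwc], ?_⟩
  rw [map_add, hwz, hz]
  abel

/-- The axioms: a graded algebra `A` of operators with adjoints for the form `β`, normalised by the
similitudes in `G`, and a self-adjoint operator `L` in `A` with hard Lefschetz. -/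
structure Setting (A : Subalgebra K (End K V)) (β : V →ₗ[K] V →ₗ[K] K) (π : ℕ → End K V)
    (G : Set (V ≃+ V)) (n c : ℕ) (L : A) : Prop where
  nd : ∀ y, (∀ x, β x y = 0) → y = 0
  adj : ∀ a : A, ∃ a' : A, (∀ x y, β (a • x) y = β x (a' • y)) ∧
    ∀ x y, β (a' • x) y = β x (a • y)
  idem : ∀ j x, π j (π j x) = π j x
  flip : ∀ U W : Submodule A V, Gr π (U : Set V) → Gr π (W : Set V) →
    Orth β (U : Set V) W → Orth β (W : Set V) U
  conj : ∀ σ ∈ G, ∀ a : A, ∃ a' : A, ∀ x, σ (a • x) = a' • σ x
  inv : ∀ σ ∈ G, σ.symm ∈ G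
  sim : ∀ σ ∈ G, ∀ x y, β x y = 0 → β (σ x) (σ y) = 0
  gr : ∀ N : Submodule A V, GStable G (N : Set V) → Gr π (N : Set V)
  homL : ∀ x : V, π (n + c) (((L : End K V) ^ c) x) = ((L : End K V) ^ c) (π (n - c) x)
  selfadj : ∀ x y, β ((L : End K V) x) y = β x ((L : End K V) y)
  pair : ∀ x z, π (n - c) x = x → β x z = β x (π (n + c) z)
  hl : HLat π n c L Set.univ

variable {β : V →ₗ[K] V →ₗ[K] K} {G : Set (V ≃+ V)}

namespace Setting

variable (S : Setting A β π G n c L)
include S

lemma jac_adj {a a' : A} (ha : a ∈ Ring.jacobson A)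
    (h : ∀ x y, β (a • x) y = β x (a' • y)) : a' ∈ Ring.jacobson A := by
  rw [mem_jacobson_iff]
  intro b
  obtain ⟨b', -, hb'⟩ := S.adj b
  have h1 : IsNilpotent (a * b') := by
    obtain ⟨m, hm⟩ := mem_jacobson_iff.1 ha b'
    refine ⟨m + 1, ?_⟩
    have : ∀ m, (a * b') ^ (m + 1) = a * (b' * a) ^ m * b' := by
      intro m
      induction m with
      | zero => rw [zero_add, pow_one, pow_zero, mul_one]
      | succ m ih => rw [pow_succ, ih, pow_succ (b' * a)]; noncomm_ring
    rw [this, hm, mul_zero, zero_mul]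
  obtain ⟨m, hm⟩ := h1
  refine ⟨m, ?_⟩
  have h2 : ∀ m x y, β ((a * b') ^ m • x) y = β x ((b * a') ^ m • y) := by
    intro m
    induction m with
    | zero => intro x y; rw [pow_zero, pow_zero, one_smul, one_smul]
    | succ m ih =>
      intro x y
      rw [pow_succ', mul_smul, mul_smul, h, hb', ih, pow_succ (b * a'), mul_smul, mul_smul]
  apply Subtype.ext
  apply LinearMap.ext
  intro y
  apply S.nd
  intro x
  have := h2 m x y
  rw [hm, zero_smul, map_zero, LinearMap.zero_apply] at this
  exact this.symm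

lemma jac_conj {σ : V ≃+ V} (hσ : σ ∈ G) {a a' : A} (ha : a ∈ Ring.jacobson A)
    (h : ∀ x, σ (a • x) = a' • σ x) : a' ∈ Ring.jacobson A := by
  rw [mem_jacobson_iff]
  intro b
  obtain ⟨b', hb'⟩ := S.conj _ (S.inv σ hσ) b
  have hb : ∀ x, σ (b' • x) = b • σ x := by
    intro x
    have := hb' (σ x)
    rw [AddEquiv.symm_apply_apply] at this
    rw [← this, AddEquiv.apply_symm_apply]
  obtain ⟨m, hm⟩ := mem_jacobson_iff.1 ha b'
  refine ⟨m, ?_⟩
  have h2 : ∀ m x, σ ((b' * a) ^ m • x) = (b * a') ^ m • σ x := by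
    intro m
    induction m with
    | zero => intro x; rw [pow_zero, pow_zero, one_smul, one_smul]
    | succ m ih =>
      intro x
      rw [pow_succ, pow_succ, mul_smul, ih, mul_smul, hb, h, ← mul_smul, ← mul_smul, mul_assoc]
  apply Subtype.ext
  apply LinearMap.ext
  intro y
  have := h2 m (σ.symm y)
  rw [hm, zero_smul, map_zero, AddEquiv.apply_symm_apply] at this
  exact this.symm

/-- The orthogonal complement. -/
def orth (N : Submodule A V) : Submodule A V where
  carrier := {x | ∀ y ∈ N, β x y = 0}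
  add_mem' := fun {x x'} hx hx' y hy => by
    rw [map_add, LinearMap.add_apply, hx y hy, hx' y hy, add_zero]
  zero_mem' := fun y _ => by rw [map_zero, LinearMap.zero_apply]
  smul_mem' := fun a x hx y hy => by
    obtain ⟨a', ha', -⟩ := S.adj a
    rw [ha']
    exact hx _ (N.smul_mem _ hy)

lemma mem_orth {N : Submodule A V} {x : V} : x ∈ S.orth N ↔ ∀ y ∈ N, β x y = 0 := Iff.rfl

lemma orth_smul {U W : Submodule A V} (h : Orth β (U : Set V) (Ring.jacobson A • W : Submodule A V)) :
    Orth β ((Ring.jacobson A • U : Submodule A V) : Set V) W := by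
  intro u hu w hw
  refine Submodule.smul_induction_on hu ?_ ?_
  · intro j hj x hx
    obtain ⟨j', hj', -⟩ := S.adj j
    rw [hj']
    exact h x hx _ (Submodule.smul_mem_smul (S.jac_adj hj hj') hw)
  · intro x y hx hy
    rw [map_add, LinearMap.add_apply, hx, hy, add_zero]

lemma orth_JP {U W : Submodule A V} (a : ℕ) : ∀ b, Orth β (U : Set V) (JP W (a + b)) →
    Orth β (JP U a : Set V) (JP W b) := by
  induction a with
  | zero => intro b h; rwa [zero_add] at h
  | succ a ih =>
    intro b h
    apply S.orth_smul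
    apply ih (b + 1)
    rwa [show a + (b + 1) = a + 1 + b by ring]

lemma smul_stable {N : Submodule A V} (hN : GStable G (N : Set V)) :
    GStable G ((Ring.jacobson A • N : Submodule A V) : Set V) := by
  intro σ hσ x hx
  refine Submodule.smul_induction_on hx ?_ ?_
  · intro j hj x hx
    obtain ⟨j', hj'⟩ := S.conj σ hσ j
    rw [hj']
    exact Submodule.smul_mem_smul (S.jac_conj hσ hj hj') (hN σ hσ x hx)
  · intro x y hx hy
    rw [map_add]
    exact Submodule.add_mem _ hx hy

lemma JP_stable {N : Submodule A V} (hN : GStable G (N : Set V)) (a : ℕ) :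
    GStable G (JP N a : Set V) := by
  induction a with
  | zero => exact hN
  | succ a ih => exact S.smul_stable ih

lemma orth_stable {N : Submodule A V} (hN : GStable G (N : Set V)) :
    GStable G (S.orth N : Set V) := by
  intro σ hσ x hx y hy
  have h1 := S.sim σ hσ x (σ.symm y) (hx _ (hN _ (S.inv σ hσ) y hy))
  rwa [AddEquiv.apply_symm_apply] at h1

/-- Hard Lefschetz passes to the orthogonal complement. -/
lemma orth_hl {N : Submodule A V} (hN : Gr π (N : Set V)) (h : HLat π n c L (N : Set V)) :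
    HLat π n c L (S.orth N : Set V) := by
  intro y hy hyc
  obtain ⟨x, -, hx, hxy⟩ := S.hl y trivial hyc
  refine ⟨x, ?_, hx, hxy⟩
  intro z hz
  obtain ⟨w, hw, -, hwz⟩ := h (π (n + c) z) (hN _ z hz) (S.idem _ _)
  have h1 : ∀ (c : ℕ) (x y : V), β (((L : End K V) ^ c) x) y = β x (((L : End K V) ^ c) y) := by
    intro c
    induction c with
    | zero => intro x y; rfl
    | succ c ih =>
      intro x y
      conv_lhs => rw [pow_succ, Module.End.mul_apply]
      rw [ih, S.selfadj, pow_succ', Module.End.mul_apply]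
  rw [S.pair x z hx, ← hwz, ← h1, hxy]
  exact hy w hw

/-- **It is enough to consider isotropic invariant submodules.** -/
theorem hl_all (H : ∀ N : Submodule A V, GStable G (N : Set V) → Orth β (N : Set V) N →
    HLat π n c L (N : Set V)) (N : Submodule A V) (hN : Gr π (N : Set V)) :
    HLat π n c L (N : Set V) := by
  -- a maximal isotropic invariant submodule
  have hnoeth : IsNoetherian A V := isNoetherian_of_tower K inferInstance
  obtain ⟨N₀, ⟨hst, hiso⟩, hmax⟩ := (set_has_maximal_iff_noetherian.2 hnoeth)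
    {N : Submodule A V | GStable G (N : Set V) ∧ Orth β (N : Set V) N} ⟨⊥, by
      refine ⟨fun σ _ x hx => ?_, fun u hu w _ => ?_⟩
      · rw [SetLike.mem_coe, Submodule.mem_bot] at hx ⊢
        rw [hx, map_zero]
      · rw [SetLike.mem_coe, Submodule.mem_bot] at hu
        rw [hu, map_zero, LinearMap.zero_apply]⟩
  set P := S.orth N₀ with hP
  have hN₀P : N₀ ≤ P := fun x hx y hy => hiso x hx y hy
  have hPst := S.orth_stable hst
  have hJP : Ring.jacobson A • P ≤ N₀ := by
    obtain ⟨m₀, hm₀⟩ := JP_nil P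
    have hex : ∃ m, JP P m ≤ N₀ := ⟨m₀, by rw [hm₀]; exact bot_le⟩
    classical
    set m := Nat.find hex with hm
    have hm1 : JP P m ≤ N₀ := Nat.find_spec hex
    by_cases h1 : m ≤ 1
    · exact (JP_anti P h1).trans hm1
    exfalso
    obtain ⟨a, ha⟩ : ∃ a, m = a + 1 := ⟨m - 1, by omega⟩
    have hnot : ¬ JP P a ≤ N₀ := Nat.find_min hex (by omega)
    have hast : GStable G (JP P a : Set V) := S.JP_stable hPst a
    have hg : ∀ {U : Submodule A V}, GStable G (U : Set V) → Gr π (U : Set V) :=
      fun hU => S.gr _ hU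
    have hPN : Orth β (P : Set V) N₀ := fun x hx y hy => hx y hy
    have hNP : Orth β (N₀ : Set V) P := S.flip _ _ (hg hPst) (hg hst) hPN
    have haa : Orth β (JP P a : Set V) (JP P a) := by
      apply S.orth_JP a a
      intro x hx y hy
      exact hPN x hx y (hm1 (JP_anti P (by omega) hy))
    have haP : JP P a ≤ P := JP_le P a
    have hnew : N₀ ⊔ JP P a ∈ {N : Submodule A V | GStable G (N : Set V) ∧
        Orth β (N : Set V) N} := by
      refine ⟨?_, ?_⟩
      · intro σ hσ x hx
        obtain ⟨y, hy, z, hz, rfl⟩ := Submodule.mem_sup.1 hx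
        rw [map_add]
        exact Submodule.add_mem_sup (hst σ hσ y hy) (hast σ hσ z hz)
      · intro u hu w hw
        obtain ⟨y, hy, z, hz, rfl⟩ := Submodule.mem_sup.1 hu
        obtain ⟨y', hy', z', hz', rfl⟩ := Submodule.mem_sup.1 hw
        simp only [map_add, LinearMap.add_apply, hiso y hy y' hy',
          hNP y hy z' (haP hz'), hPN z (haP hz) y' hy', haa z hz z' hz', add_zero]
    apply hmax _ hnew
    refine lt_of_le_of_ne le_sup_left ?_
    intro h
    apply hnot
    rw [h]
    exact le_sup_right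
  have hgr : ∀ {U : Submodule A V}, GStable G (U : Set V) → Gr π (U : Set V) :=
    fun hU => S.gr _ hU
  have hiso' : ∀ a, Orth β (JP N₀ a : Set V) (JP N₀ a) := fun a x hx y hy =>
    hiso x (JP_le _ _ hx) y (JP_le _ _ hy)
  obtain ⟨m, hm⟩ := JP_nil N₀
  -- the lower half of the chain
  have low : ∀ a, ∀ N : Submodule A V, N ≤ JP N₀ (m - a) → Gr π (N : Set V) →
      HLat π n c L (N : Set V) := by
    intro a
    induction a with
    | zero =>
      intro N hN hg y hy hyc
      rw [Nat.sub_zero, hm, le_bot_iff] at hN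
      subst hN
      refine ⟨0, Submodule.zero_mem _, map_zero _, ?_⟩
      rw [SetLike.mem_coe, Submodule.mem_bot] at hy
      rw [map_zero, hy]
    | succ a ih =>
      by_cases ham : a < m
      · have e1 : m - a = (m - (a + 1)) + 1 := by omega
        exact step S.idem S.homL (JP_anti N₀ (by omega) : JP N₀ (m - a) ≤ JP N₀ (m - (a + 1)))
          (hgr (S.JP_stable hst _)) (by
            intro j hj x hx
            rw [e1]
            exact Submodule.smul_mem_smul hj hx)
          (H _ (S.JP_stable hst _) (hiso' _)) ih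
      · rw [show m - (a + 1) = m - a by omega]
        exact ih
  have up : ∀ a, ∀ N : Submodule A V, N ≤ S.orth (JP N₀ a) → Gr π (N : Set V) →
      HLat π n c L (N : Set V) := by
    intro a
    have hhl : ∀ a, HLat π n c L (S.orth (JP N₀ a) : Set V) := fun a =>
      S.orth_hl (hgr (S.JP_stable hst _)) (H _ (S.JP_stable hst _) (hiso' _))
    induction a with
    | zero =>
      refine step S.idem S.homL hN₀P (hgr hst) ?_ (hhl 0) ?_
      · intro j hj x hx
        exact hJP (Submodule.smul_mem_smul hj hx)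
      · have := low m
        rwa [Nat.sub_self] at this
    | succ a ih =>
      refine step S.idem S.homL ?_ (hgr (S.orth_stable (S.JP_stable hst a))) ?_ (hhl _) ih
      · intro x hx y hy
        exact hx y (JP_anti N₀ (Nat.le_succ a) hy)
      · intro j hj x hx y hy
        obtain ⟨j', hj', -⟩ := S.adj j
        rw [hj']
        exact hx _ (Submodule.smul_mem_smul (S.jac_adj hj hj') hy)
  refine up m N ?_ hN
  intro x _ y hy
  rw [hm, Submodule.mem_bot] at hy
  rw [hy, map_zero]

end Setting

end Main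

end Pool.Agent.U190.GD
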