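import Pool.Agent.U190.GD.Top

/-!
# One cycle for all theories in one degree
-/

set_option autoImplicit false

open CategoryTheory AlgebraicGeometry

universe u₁ v₁ u v

namespace Pool.Agent.U190.GD

open Pool.Agent.H914 Pool.Agent.H914.VarClass Pool.Agent.H914.VarClass.Obj
  Pool.Agent.H914.WeilCohomology Pool.Agent.TH133.PW Pool.Agent.R908 Pool.Agent.U190.GS
  Pool.Agent.Y106.One Pool.Agent.W537 Pool.Agent.N180.Cf

variable {k : Type u} [Field k] {𝒱 : VarClass k} {ops : CycleOps 𝒱}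
  {k₀ : Type u₁} [Field k₀] {𝒱₀ : VarClass k₀} {ops₀ : CycleOps 𝒱₀} {X : 𝒱.Obj}

/-- The isotropic stable subspaces detect the existence of one cycle for all theories. -/
theorem oneCycle_tfae (R : Reduction X 𝒱₀) {i : ℕ} (hi : i ≤ X.dim) {D : X.Cycles}
    (hD : X.IsCyc 1 D)
    (hL : LefschetzForOne.{u, v} (ops := ops) (Reduction.Pure.{u₁, v₁} R ops₀) X D i) :
    [OneCycleForAll.{u, v} (ops := ops) (Reduction.Pure.{u₁, v₁} R ops₀) X D i,
      ∃ W : WeilCohomology.{u, v} ops, Reduction.Pure.{u₁, v₁} R ops₀ W ∧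
        (∃ D₁, X.IsCyc 1 D₁ ∧ InjectsOn (W.gr X i) (lefPow W X D₁ (X.dim - i))) ∧
        ∃ 𝒢 : Set (Symmetry W), InequalityIn 𝒢 X i,
      ∀ W : WeilCohomology.{u, v} ops, Reduction.Pure.{u₁, v₁} R ops₀ W →
        ∀ N, IsStable W X N →
          N (2 * X.dim - i) ≤ (N i).map (lefPow W X D (X.dim - i))].TFAE := by
  tfae_have 1 → 3 := by
    rintro ⟨z, hz⟩ W hW N hN y hy
    obtain ⟨hz1, hz2, hz3⟩ := hz W hW
    have hinj : InjectsOn (W.gr X i) (lefPow W X D (X.dim - i)) := by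
      intro a ha h0
      rw [← hz2 a ha, h0, map_zero]
    have hI : InjectsLefschetz W X D i := by
      refine ⟨W.cl _ z, Submodule.subset_span ⟨i, rfl, z, hz1, rfl⟩, ?_⟩
      intro a ha h0
      have h1 : cycOp W X z (lefPow W X D (X.dim - i) a) = 0 := h0
      rwa [hz2 a ha] at h1
    have hi2 : X.dim - (X.dim - i) = i := by omega
    have hi3 : X.dim + (X.dim - i) = 2 * X.dim - i := by omega
    have key := lefschetzAt_stable (W := W) (∅ : Set (Symmetry W)) hD
      (by omega : X.dim - i ≤ X.dim) (by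
        intro a ha h0
        rw [hi2] at ha
        exact hinj a ha h0) (by
        rw [hi2]
        intro N' hN' _ _
        exact inequality_of_inverse hD hi hI hN') hN (y := y) (by rwa [hi3])
    obtain ⟨x, hx, hxy⟩ := key
    rw [hi2] at hx
    exact ⟨x, hx, hxy⟩
  tfae_have 3 → 2 := by
    intro h
    obtain ⟨W, hW, hinj⟩ := hL
    refine ⟨W, hW, ⟨D, hD, hinj⟩, ∅, fun N hN _ _ => ?_⟩
    exact (Submodule.finrank_mono (h W hW N hN)).trans (Submodule.finrank_map_le _ _)
  tfae_have 2 → 1 := by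
    rintro ⟨W, hW, ⟨D₁, hD₁, hinj⟩, 𝒢, h⟩
    exact oneCycle_of_one R hi ⟨W, D₁, hW, hD₁, injects_of_inequality 𝒢 hD₁ hi hinj h⟩ hD hL
  tfae_finish

variable {W : WeilCohomology.{u, v} ops} {V Z : 𝒱.Obj}

/-- Stable isotropic subspaces vanish in a degree dual to a generated one. -/
theorem inequality_of_generated {𝒢 : Set (Symmetry W)} {𝒵 : Set (𝒱.Obj × ℕ)}
    (h𝒵 : ∀ Z j, (Z, j) ∈ 𝒵 → NoIsotropicIn 𝒢 Z j) {i : ℕ} (hi : i ≤ X.dim)
    (hgen : GeneratedIn W 𝒵 X i) : InequalityIn 𝒢 X i := by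
  intro N hN hinv hiso
  have hbot : N (2 * X.dim - i) = ⊥ := by
    rw [Submodule.eq_bot_iff]
    intro y hy
    apply nondeg_right
    intro x
    refine gr_induction (W.isInternal X) (p := fun x => W.tr X (x * y) = 0) ?_ ?_ x
    · intro l x hx
      by_cases hl : l = i
      · subst hl
        refine Submodule.span_induction (p := fun x _ => W.tr X (x * y) = 0) ?_ ?_ ?_ ?_ (hgen hx)
        · rintro x ⟨Z, j, hZ, hj, p, z, hz, a, ha, rfl⟩
          obtain ⟨ψ, hψ, hadj⟩ := KOp.exists_adjoint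
            (KOp.gen (W := W) (d := (p : ℤ) - Z.dim) (p := p) (by ring) hz)
          rw [hadj]
          by_cases h0 : 0 ≤ ((2 * X.dim - l : ℕ) : ℤ) + 2 * (((p : ℤ) - Z.dim) + Z.dim - X.dim)
          · obtain ⟨e, he⟩ := Int.eq_ofNat_of_zero_le h0
            have h2 : ψ y ∈ pushFam W X Z N e := pushFam_gen he.symm hψ hy
            have h3 := pushFam_isStable (Z := Z) hN.le
            by_cases hel : e = 2 * Z.dim - j
            · rw [hel, h𝒵 Z j hZ _ h3 (pushFam_isInvariant hinv) (pushFam_isIsotropic hN hiso),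
                Submodule.mem_bot] at h2
              rw [h2, mul_zero, map_zero]
            · exact W.tr_eq_zero (W.mul_mem ha (h3.le _ h2)) (by omega)
          · rw [kop_neg (by omega) hψ (hN.le _ hy), mul_zero, map_zero]
        · rw [zero_mul, map_zero]
        · intro x x' _ _ h1 h2
          rw [add_mul, map_add, h1, h2, add_zero]
        · intro c x _ h
          rw [smul_mul_assoc, map_smul, h, smul_zero]
      · exact W.tr_eq_zero (W.mul_mem hx (hN.le _ hy)) (by omega)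
    · intro a b ha hb
      rw [add_mul, map_add, ha, hb, add_zero]
  rw [hbot, finrank_bot]
  exact Nat.zero_le _

/-- **One cycle for all theories if the cohomology in one degree is generated by cohomology groups
without isotropic invariant subspaces.** -/
theorem oneCycle_of_generated (R : Reduction X 𝒱₀) {i : ℕ} (hi : i ≤ X.dim)
    (hW : Reduction.Pure.{u₁, v₁} R ops₀ W)
    (hinj : ∃ D₁, X.IsCyc 1 D₁ ∧ InjectsOn (W.gr X i) (lefPow W X D₁ (X.dim - i)))
    {𝒢 : Set (Symmetry W)} {𝒵 : Set (𝒱.Obj × ℕ)}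
    (h𝒵 : ∀ Z j, (Z, j) ∈ 𝒵 → NoIsotropicIn 𝒢 Z j) (hgen : GeneratedIn W 𝒵 X i)
    {D : X.Cycles} (hD : X.IsCyc 1 D)
    (hL : LefschetzForOne.{u, v} (ops := ops) (Reduction.Pure.{u₁, v₁} R ops₀) X D i) :
    OneCycleForAll.{u, v} (ops := ops) (Reduction.Pure.{u₁, v₁} R ops₀) X D i := by
  have h := (oneCycle_tfae (ops₀ := ops₀) R hi hD hL).out 1 0
  exact h.1 ⟨W, hW, hinj, 𝒢, inequality_of_generated h𝒵 hi hgen⟩

/-- The condition holds if `H^j(Z)` is spanned by algebraic classes. -/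
lemma noIsotropicIn_of_algebraic {𝒢 : Set (Symmetry W)} {j : ℕ} (hj : j ≤ 2 * Z.dim)
    (h : W.gr Z j ≤ Submodule.span W.K {x | ∃ p z, Z.IsCyc p z ∧ W.cl Z z = x}) :
    NoIsotropicIn 𝒢 Z j := by
  intro N hN _ hiso
  rw [Submodule.eq_bot_iff]
  intro y hy
  apply W.nondeg
  intro x
  refine gr_induction (W.isInternal Z) (p := fun x => W.tr Z (y * x) = 0) ?_ ?_ x
  · intro l x hx
    by_cases hl : l = j
    · subst hl
      refine Submodule.span_induction (p := fun x _ => W.tr Z (y * x) = 0) ?_ ?_ ?_ ?_ (h hx)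
      · rintro x ⟨p, z, hz, rfl⟩
        have h1 := stable_transcendental hN hiso _ hy
        rw [transcendental, orthCompl, Submodule.mem_iInf] at h1
        have h2 := h1 (W.cl Z z)
        rw [Submodule.mem_iInf] at h2
        exact h2 (Set.mem_iUnion.2 ⟨p, z, hz, rfl⟩)
      · rw [mul_zero, map_zero]
      · intro x x' _ _ h1 h2
        rw [mul_add, map_add, h1, h2, add_zero]
      · intro c x _ h
        rw [mul_smul_comm, map_smul, h, smul_zero]
    · exact W.tr_eq_zero (W.mul_mem (hN.le _ hy) hx) (by omega)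
  · intro a b ha hb
    rw [mul_add, map_add, ha, hb, add_zero]

/-- The condition holds in the middle degree if no nonzero subspace of the transcendental part of
`H^m(Z)`, `m = dim Z`, which is stable under the correspondences of degree zero and the symmetries
is isotropic. -/
lemma noIsotropicIn_middle {𝒢 : Set (Symmetry W)}
    (h : ∀ U : Submodule W.K (W.H Z), U ≤ transcendental W Z → U ≤ W.gr Z Z.dim → U ≠ ⊥ →
      (∀ φ ∈ KOp W Z Z 0, ∀ x ∈ U, φ x ∈ U) → (∀ S ∈ 𝒢, ∀ x ∈ U, S.σ Z x ∈ U) →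
      ∃ x ∈ U, ∃ y ∈ U, W.tr Z (x * y) ≠ 0) : NoIsotropicIn 𝒢 Z Z.dim := by
  intro N hN hinv hiso
  rw [show 2 * Z.dim - Z.dim = Z.dim by omega]
  by_contra hne
  obtain ⟨x, hx, y, hy, hxy⟩ := h (N Z.dim) (stable_transcendental hN hiso _) (hN.le _) hne
    (fun φ hφ x hx => hN.kop (by ring) hφ hx) (fun S hS x hx => hinv S hS _ x hx)
  exact hxy (hiso _ _ x hx y hy)

end Pool.Agent.U190.GD
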