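import Pool.Agent.U190.GD.Lin
import Pool.Agent.U190.GD.Defs
import Pool.Agent.U190.GS.Top
import Pool.Agent.Y106.One.Main

/-!
# The Lefschetz standard conjecture in one degree and isotropic stable subspaces
-/

set_option autoImplicit false

open CategoryTheory AlgebraicGeometry

universe u₁ v₁ u v

namespace Pool.Agent.U190.GD

open Pool.Agent.H914 Pool.Agent.H914.VarClass Pool.Agent.H914.VarClass.Obj
  Pool.Agent.H914.WeilCohomology Pool.Agent.TH133.PW Pool.Agent.R908 Pool.Agent.U190.GS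
  Pool.Agent.Y106.One Pool.Agent.W537 Pool.Agent.N180.Cf

variable {k : Type u} [Field k] {𝒱 : VarClass k} {ops : CycleOps 𝒱}
  {W : WeilCohomology.{u, v} ops} {X Y : 𝒱.Obj}

/-- Cup product with the power of the divisor shifts the degree. -/
lemma pow_mem {D : X.Cycles} (hD : X.IsCyc 1 D) (c : ℕ) {i : ℕ} {a : W.H X} (ha : a ∈ W.gr X i) :
    ((LinearMap.mulLeft W.K (W.cl X D)) ^ c) a ∈ W.gr X (i + 2 * c) := by
  rw [LinearMap.pow_mulLeft, LinearMap.mulLeft_apply, add_comm]
  refine W.mul_mem ?_ ha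
  have h1 : W.cl X D ∈ W.gr X (2 * 1) := W.cl_mem hD
  induction c with
  | zero => rw [pow_zero]; exact W.one_mem X
  | succ c ih =>
    rw [pow_succ]
    exact (by ring : 2 * c + 2 * 1 = 2 * (c + 1)) ▸ W.mul_mem ih h1

/-- Poincaré duality for the Betti numbers, one inequality. -/
lemma gr_symm_le (W : WeilCohomology.{u, v} ops) {i j : ℕ} (hij : i + j = 2 * X.dim) :
    Module.finrank W.K (W.gr X i) ≤ Module.finrank W.K (W.gr X j) := by
  set φ : W.gr X i →ₗ[W.K] Module.Dual W.K (W.gr X j) :=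
    { toFun := fun a => W.tr X ∘ₗ LinearMap.mulLeft W.K (a : W.H X) ∘ₗ (W.gr X j).subtype
      map_add' := by
        intro a b
        ext c
        simp [add_mul]
      map_smul' := by
        intro a b
        ext c
        simp } with hφ
  have hinj : Function.Injective φ := by
    rw [← LinearMap.ker_eq_bot, LinearMap.ker_eq_bot']
    rintro ⟨a, ha⟩ h0
    apply Subtype.ext
    apply W.nondeg
    intro c
    refine gr_induction (W.isInternal X) (p := fun c => W.tr X (a * c) = 0) ?_ ?_ c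
    · intro m c hc
      by_cases hm : m = j
      · subst hm
        exact congrArg (fun F => F ⟨c, hc⟩) h0
      · exact W.tr_eq_zero (W.mul_mem ha hc) (by omega)
    · intro c c' hc hc'
      rw [mul_add, map_add, hc, hc', add_zero]
  have h1 := LinearMap.finrank_le_finrank_of_injective hinj
  rwa [Subspace.dual_finrank_eq] at h1

/-- Injective powers of a divisor are surjective. -/
lemma surj_of_inj {D : X.Cycles} (hD : X.IsCyc 1 D) {c : ℕ} (hc : c ≤ X.dim)
    (hinj : ∀ a ∈ W.gr X (X.dim - c), W.cl X D ^ c * a = 0 → a = 0) {y : W.H X}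
    (hy : y ∈ W.gr X (X.dim + c)) : ∃ x ∈ W.gr X (X.dim - c), W.cl X D ^ c * x = y := by
  have h2 : (W.gr X (X.dim - c)).map (LinearMap.mulLeft W.K (W.cl X D ^ c)) ≤
      W.gr X (X.dim + c) := by
    rintro _ ⟨x, hx, rfl⟩
    have := pow_mem hD c hx
    rwa [LinearMap.pow_mulLeft, show X.dim - c + 2 * c = X.dim + c by omega] at this
  have h3 : (W.gr X (X.dim - c)).map (LinearMap.mulLeft W.K (W.cl X D ^ c)) =
      W.gr X (X.dim + c) := by
    apply Submodule.eq_of_le_of_finrank_le h2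
    rw [finrank_map_injOn _ _ (fun x hx h0 => hinj x hx h0)]
    exact gr_symm_le W (by omega)
  rw [← h3] at hy
  obtain ⟨x, hx, h⟩ := hy
  exact ⟨x, hx, h⟩

/-- The axioms hold in one degree. -/
theorem setting (𝒢 : Set (Symmetry W)) {D : X.Cycles} (hD : X.IsCyc 1 D) {c : ℕ} (hc : c ≤ X.dim)
    (hinj : ∀ a ∈ W.gr X (X.dim - c), W.cl X D ^ c * a = 0 → a = 0) :
    Setting (corrAlg W X) (cup W X) (proj (W.isInternal X)) (symSet 𝒢 X) X.dim c (lefOp W hD) where
  nd := fun y h => nondeg_right fun x => h x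
  adj := fun a => by
    obtain ⟨ψ, hψ, h1, h2⟩ := exists_adj_both a.2
    exact ⟨⟨ψ, hψ⟩, h1, h2⟩
  idem := fun j x => by
    rw [← Module.End.mul_apply, proj_mul_proj]
  flip := fun U V hU hV h w hw u hu => by
    rw [cup_apply, eq_sum_proj w, Finset.sum_mul, map_sum]
    refine Finset.sum_eq_zero fun i _ => ?_
    rw [eq_sum_proj u, Finset.mul_sum, map_sum]
    refine Finset.sum_eq_zero fun j _ => ?_
    rw [W.comm (proj_mem _ i w) (proj_mem _ j u), map_smul]
    have := h _ (hU j u hu) _ (hV i w hw)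
    rw [cup_apply] at this
    rw [this, smul_zero]
  conj := fun σ hσ a => by
    obtain ⟨T, hT⟩ := symSet_sym hσ
    have key : ∃ ψ ∈ corrAlg W X, ∀ x, T.σ X ((a : Module.End W.K (W.H X)) x) = ψ (T.σ X x) := by
      refine corrAlg_ind (P := fun φ => ∃ ψ ∈ corrAlg W X, ∀ x, T.σ X (φ x) = ψ (T.σ X x)) a.2
        ?_ ?_ ?_
      · intro d φ hφ
        obtain ⟨ψ, hψ, h⟩ := sym_kop T hφ
        exact ⟨ψ, kop_mem hψ, h⟩
      · exact ⟨0, Subalgebra.zero_mem _, fun x => by
          rw [LinearMap.zero_apply, LinearMap.zero_apply, map_zero]⟩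
      · rintro x y ⟨ψ, hψ, h1⟩ ⟨ψ', hψ', h2⟩
        exact ⟨ψ + ψ', Subalgebra.add_mem _ hψ hψ', fun z => by
          rw [LinearMap.add_apply, LinearMap.add_apply, map_add, h1, h2]⟩
    obtain ⟨ψ, hψ, h⟩ := key
    refine ⟨⟨ψ, hψ⟩, fun x => ?_⟩
    rw [hT, hT]
    exact h x
  inv := fun σ hσ => by
    obtain ⟨S, hS, rfl | rfl⟩ := hσ
    · exact ⟨S, hS, Or.inr rfl⟩
    · exact ⟨S, hS, Or.inl rfl⟩
  sim := fun σ hσ x y h => by
    obtain ⟨T, hT⟩ := symSet_sym hσ
    rw [cup_apply] at h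
    rw [cup_apply, hT, hT, ← map_mul, T.tr, h, mul_zero]
  gr := fun N hN j x hx => by
    refine proj_stable (U := N.restrictScalars W.K) ?_ j x hx
    intro x hx
    exact hN _ ⟨_, Or.inr rfl, Or.inl rfl⟩ x hx
  homL := fun x => by
    refine gr_induction (W.isInternal X) (p := fun x => proj (W.isInternal X) (X.dim + c)
      (((LinearMap.mulLeft W.K (W.cl X D)) ^ c) x) = ((LinearMap.mulLeft W.K (W.cl X D)) ^ c)
        (proj (W.isInternal X) (X.dim - c) x)) ?_ ?_ x
    · intro i a ha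
      by_cases hi : i = X.dim - c
      · subst hi
        rw [proj_same _ ha, proj_same]
        have := pow_mem hD c ha
        rwa [show X.dim - c + 2 * c = X.dim + c by omega] at this
      · rw [proj_ne _ ha hi, map_zero, proj_ne _ (pow_mem hD c ha) (by omega)]
    · intro a b ha hb
      rw [map_add, map_add, ha, hb, map_add, map_add]
  selfadj := fun x y => by
    change W.tr X (W.cl X D * x * y) = W.tr X (x * (W.cl X D * y))
    rw [W.even_comm (p := 1) (W.cl_mem hD) x, mul_assoc]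
  pair := fun x z hx => by
    rw [cup_apply, cup_apply]
    refine gr_induction (W.isInternal X) (p := fun z => W.tr X (x * z) =
      W.tr X (x * proj (W.isInternal X) (X.dim + c) z)) ?_ ?_ z
    · intro i a ha
      by_cases hi : i = X.dim + c
      · subst hi
        rw [proj_same _ ha]
      · rw [proj_ne _ ha hi, mul_zero, map_zero]
        have : x ∈ W.gr X (X.dim - c) := by rw [← hx]; exact proj_mem _ _ _
        exact W.tr_eq_zero (W.mul_mem this ha) (by omega)
    · intro a b ha hb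
      rw [mul_add, map_add, ha, hb, map_add, mul_add, map_add]
  hl := fun y _ hy => by
    have hy' : y ∈ W.gr X (X.dim + c) := by rw [← hy]; exact proj_mem _ _ _
    obtain ⟨x, hx, hxy⟩ := surj_of_inj hD hc hinj hy'
    refine ⟨x, trivial, proj_same _ hx, ?_⟩
    change ((LinearMap.mulLeft W.K (W.cl X D)) ^ c) x = y
    rw [LinearMap.pow_mulLeft]
    exact hxy

lemma hlat_of_ineq {D : X.Cycles} (hD : X.IsCyc 1 D) {c : ℕ} (hc : c ≤ X.dim)
    (hinj : ∀ a ∈ W.gr X (X.dim - c), W.cl X D ^ c * a = 0 → a = 0)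
    {N : Submodule (corrAlg W X) (W.H X)}
    (h : Module.finrank W.K (fam N (X.dim + c)) ≤ Module.finrank W.K (fam N (X.dim - c))) :
    HLat (proj (W.isInternal X)) X.dim c (lefOp W hD : Module.End W.K (W.H X))
      (N : Set (W.H X)) := by
  intro y hy hyc
  have hyg : y ∈ W.gr X (X.dim + c) := by rw [← hyc]; exact proj_mem _ _ _
  have hN := fam_isStable N
  have h2 : (fam N (X.dim - c)).map (LinearMap.mulLeft W.K (W.cl X D ^ c)) ≤
      fam N (X.dim + c) := by
    rintro _ ⟨x, hx, rfl⟩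
    exact hN.kop (by omega) (pow_cl_mem hD c) hx
  have h3 : (fam N (X.dim - c)).map (LinearMap.mulLeft W.K (W.cl X D ^ c)) =
      fam N (X.dim + c) := by
    apply Submodule.eq_of_le_of_finrank_le h2
    rw [finrank_map_injOn _ _ (fun x hx h0 => hinj x (hN.le _ hx) h0)]
    exact h
  have hy' : y ∈ fam N (X.dim + c) := ⟨hy, hyg⟩
  rw [← h3] at hy'
  obtain ⟨x, hx, hxy⟩ := hy'
  refine ⟨x, hx.1, proj_same _ hx.2, ?_⟩
  change ((LinearMap.mulLeft W.K (W.cl X D)) ^ c) x = y
  rw [LinearMap.pow_mulLeft]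
  exact hxy

/-- Hard Lefschetz in one degree on all stable subspaces. -/
theorem lefschetzAt_stable (𝒢 : Set (Symmetry W)) {D : X.Cycles} (hD : X.IsCyc 1 D) {c : ℕ}
    (hc : c ≤ X.dim) (hinj : ∀ a ∈ W.gr X (X.dim - c), W.cl X D ^ c * a = 0 → a = 0)
    (H : InequalityIn 𝒢 X (X.dim - c)) {N : ℕ → Submodule W.K (W.H X)} (hN : IsStable W X N)
    {y : W.H X} (hy : y ∈ N (X.dim + c)) : ∃ x ∈ N (X.dim - c), W.cl X D ^ c * x = y := by
  have hyg : y ∈ W.gr X (X.dim + c) := hN.le _ hy
  have S := setting 𝒢 hD hc hinj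
  have key := S.hl_all (fun M hM hiso => by
    apply hlat_of_ineq hD hc hinj
    have h1 := H (fam M) (fam_isStable M) (by
      intro T hT i x hx
      exact ⟨hM _ ⟨T, Or.inl hT, Or.inl rfl⟩ x hx.1, T.gr.2 hx.2⟩) (by
      intro i j x hx y hy
      exact hiso x hx.1 y hy.1)
    rwa [show 2 * X.dim - (X.dim - c) = X.dim + c by omega] at h1) (unfam hN) (by
      intro j x hx i
      by_cases hij : j = i
      · subst hij
        rw [proj_same _ (proj_mem _ _ _)]
        exact hx j
      · rw [proj_ne _ (proj_mem _ _ _) hij]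
        exact Submodule.zero_mem _)
  obtain ⟨x, hx, hxc, hxy⟩ := key y (by
    intro j
    by_cases hj : X.dim + c = j
    · subst hj
      rw [proj_same _ hyg]
      exact hy
    · rw [proj_ne _ hyg hj]
      exact Submodule.zero_mem _) (proj_same _ hyg)
  have h3 : ((LinearMap.mulLeft W.K (W.cl X D)) ^ c) x = y := hxy
  rw [LinearMap.pow_mulLeft] at h3
  refine ⟨x, ?_, h3⟩
  have := hx (X.dim - c)
  rwa [hxc] at this

/-- **An algebraic inverse in one degree from the inequality for isotropic invariant subspaces.** -/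
theorem inverse_of_inequality (𝒢 : Set (Symmetry W)) {D : X.Cycles} (hD : X.IsCyc 1 D) {c : ℕ}
    (hc : c ≤ X.dim) (hinj : ∀ a ∈ W.gr X (X.dim - c), W.cl X D ^ c * a = 0 → a = 0)
    (H : InequalityIn 𝒢 X (X.dim - c)) :
    ∃ φ ∈ KOp W X X (-c), ∀ y ∈ W.gr X (X.dim + c), W.cl X D ^ c * φ y = y := by
  apply uniform_preimage hD hc
  intro y hy
  apply preimage_of_finrank hD hc hinj hy
  have e1 : gen W X (X.dim + c) y (X.dim + c) = orb W X 0 y := gen_eq (by ring)
  have e2 : gen W X (X.dim + c) y (X.dim - c) = orb W X (-c) y :=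
    gen_eq (by push_cast [hc]; ring)
  have h1 : Module.finrank W.K (rad W X (X.dim + c) y (X.dim + c)) ≤
      Module.finrank W.K (rad W X (X.dim + c) y (X.dim - c)) := by
    refine le_trans (Submodule.finrank_mono (t := (rad W X (X.dim + c) y (X.dim - c)).map
      (LinearMap.mulLeft W.K (W.cl X D ^ c))) ?_) (Submodule.finrank_map_le _ _)
    intro z hz
    obtain ⟨x, hx, h'⟩ := lefschetzAt_stable 𝒢 hD hc hinj H (rad_isStable hy) hz
    exact ⟨x, hx, h'⟩
  refine le_trans (Submodule.finrank_mono ?_) (h1.trans (Submodule.finrank_mono ?_))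
  · intro x hx
    obtain ⟨hx1, hx2⟩ := mem_nPlus.1 hx
    refine mem_rad.2 ⟨by rw [e1]; exact hx1, fun i w hw => ?_⟩
    by_cases hi : i = X.dim - c
    · subst hi
      rw [e2] at hw
      exact hx2 w hw
    · exact W.tr_eq_zero (W.mul_mem (orb_le' (j := X.dim + c) hy (by push_cast; ring) hx1)
        (gen_le hy i hw)) (by omega)
  · intro x hx
    obtain ⟨hx1, hx2⟩ := mem_rad.1 hx
    refine mem_nPlus.2 ⟨by rw [← e2]; exact hx1, fun w hw => ?_⟩
    exact hx2 (X.dim + c) w (by rw [e1]; exact hw)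

/-- The inequality for all stable subspaces from an algebraic inverse in one degree. -/
theorem inequality_of_inverse {D : X.Cycles} (hD : X.IsCyc 1 D) {i : ℕ}
    (hi : i ≤ X.dim) (h : InjectsLefschetz W X D i) {N : ℕ → Submodule W.K (W.H X)}
    (hN : IsStable W X N) :
    Module.finrank W.K (N (2 * X.dim - i)) ≤ Module.finrank W.K (N i) := by
  obtain ⟨γ, hγ, hinj⟩ := h
  have hφ : W.corr γ ∈ KOp W X X (i - X.dim : ℤ) := mem_KOp_iff.2 ⟨γ, by
    rwa [show (X.dim : ℤ) + (i - X.dim) = i by ring], rfl⟩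
  have hi1 : ∀ a ∈ W.gr X (X.dim - (X.dim - i)), W.cl X D ^ (X.dim - i) * a = 0 → a = 0 := by
    intro a ha h0
    rw [show X.dim - (X.dim - i) = i by omega] at ha
    refine hinj a ha ?_
    change W.corr γ (W.cl X D ^ (X.dim - i) * a) = 0
    rw [h0, map_zero]
  have hγ : ∀ y ∈ W.gr X (2 * X.dim - i), W.corr γ y = 0 → y = 0 := by
    intro y hy h0
    obtain ⟨x, hx, rfl⟩ := surj_of_inj hD (by omega : X.dim - i ≤ X.dim) hi1 (by
      rwa [show X.dim + (X.dim - i) = 2 * X.dim - i by omega])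
    rw [show X.dim - (X.dim - i) = i by omega] at hx
    rw [hinj x hx h0, mul_zero]
  rw [← finrank_map_injOn (W.corr γ) (N (2 * X.dim - i))
    (fun x hx h0 => hγ x (hN.le _ hx) h0)]
  apply Submodule.finrank_mono
  rintro _ ⟨x, hx, rfl⟩
  exact hN.kop (by omega) hφ hx

theorem injects_of_inequality (𝒢 : Set (Symmetry W)) {D : X.Cycles} (hD : X.IsCyc 1 D) {i : ℕ}
    (hi : i ≤ X.dim) (hinj : InjectsOn (W.gr X i) (lefPow W X D (X.dim - i)))
    (H : InequalityIn 𝒢 X i) : InjectsLefschetz W X D i := by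
  have hi2 : X.dim - (X.dim - i) = i := by omega
  have hinj' : ∀ a ∈ W.gr X (X.dim - (X.dim - i)), W.cl X D ^ (X.dim - i) * a = 0 → a = 0 := by
    intro a ha h0
    rw [hi2] at ha
    exact hinj a ha h0
  obtain ⟨φ, hφ, h1⟩ := inverse_of_inequality 𝒢 hD (by omega : X.dim - i ≤ X.dim) hinj' (by
    rwa [hi2])
  obtain ⟨γ, hγ, rfl⟩ := mem_KOp_iff.1 hφ
  refine ⟨γ, ?_, ?_⟩
  · rwa [show (X.dim : ℤ) + -((X.dim - i : ℕ) : ℤ) = i by omega] at hγ
  · intro a ha h0
    have ha' : a ∈ W.gr X (X.dim - (X.dim - i)) := by rwa [hi2]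
    have h2 := h1 (W.cl X D ^ (X.dim - i) * a) (by
      have := pow_mem hD (X.dim - i) ha'
      rwa [LinearMap.pow_mulLeft, show X.dim - (X.dim - i) + 2 * (X.dim - i) =
        X.dim + (X.dim - i) by omega] at this)
    have h3 : W.corr γ (W.cl X D ^ (X.dim - i) * a) = 0 := h0
    rw [h3, mul_zero] at h2
    exact hinj' a ha' h2.symm

end Pool.Agent.U190.GD
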